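import Mathlib
import Pool.Agent.H317Z.GammaTrdeg

set_option autoImplicit false

namespace Pool.Agent.Results.MP_274814_nt.Counterexample14

/-- There is `q > 2` (the proof takes `q = 14`) such that the subfield of `ℂ` generated by `π`
and the values `Γ(a/q)`, `1 ≤ a ≤ q - 1`, `gcd(a,q) = 1`, has transcendence degree at most
`φ(q)/2` over `ℚ`. -/
theorem result :
    ∃ q : ℕ, 2 < q ∧
      Algebra.trdeg ℚ (IntermediateField.adjoin ℚ
        ({(Real.pi : ℂ)} ∪ {z : ℂ | ∃ a : ℕ, 1 ≤ a ∧ a ≤ q - 1 ∧ Nat.gcd a q = 1 ∧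
          z = Complex.Gamma ((a : ℂ) / (q : ℂ))})) ≤ ((Nat.totient q / 2 : ℕ) : Cardinal) := by
  refine ⟨14, by norm_num, ?_⟩
  have h : Nat.totient 14 / 2 = 3 := by decide
  rw [h]
  exact_mod_cast Pool.Agent.H317Z.GammaTrdeg.main

end Pool.Agent.Results.MP_274814_nt.Counterexample14
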